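import Pool.Agent.Helper37.HT.COND

set_option linter.dupNamespace false

/-! Module ONEA: expansion in the heavy coordinates. -/

namespace Pool.Agent.Helper94.HT

open Finset Pool.Agent.Helper11.Cube Pool.Agent.Helper11.AA Pool.Agent.Helper24.QR

/-- `cond K f` only depends on the coordinates in `K`. -/
lemma oneA_cond_congr {n : ℕ} {K : Finset (Fin n)} (f : Cube n → ℝ) {x x' : Cube n}
    (h : ∀ i ∈ K, x i = x' i) : Pool.Agent.Helper24.QR.cond K f x
      = Pool.Agent.Helper24.QR.cond K f x' := by
  unfold Pool.Agent.Helper24.QR.cond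
  refine ex_congr fun y => ?_
  congr 1
  funext i
  by_cases hi : i ∈ K
  · rw [mix_mem hi, mix_mem hi, h i hi]
  · rw [mix_notMem hi, mix_notMem hi]

lemma oneA_mix_congr {n : ℕ} {K : Finset (Fin n)} {x x' y y' : Cube n} (h : ∀ i ∈ K, x i = x' i)
    (h' : ∀ i ∉ K, y i = y' i) : mix K x y = mix K x' y' := by
  funext i
  by_cases hi : i ∈ K
  · rw [mix_mem hi, mix_mem hi, h i hi]
  · rw [mix_notMem hi, mix_notMem hi, h' i hi]

/-- Plancherel on the coordinates in `H`. -/
lemma oneA_plancherel {n r : ℕ} {q N : Cube n → ℝ} (hq : DegLE q r) (H : Finset (Fin n))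
    (z w : Cube n) :
    ex (fun u => q (mix H u z) * N (mix H u w))
      = ∑ R ∈ H.powerset.filter (fun R => R.card ≤ r),
          ex (fun u => chi R (mix H u z) * q (mix H u z))
            * Pool.Agent.Helper24.QR.cond (univ \ H) (fun z => chi R z * N z) w := by
  rw [plancherel (fun u => q (mix H u z)) (fun u => N (mix H u w))]
  symm
  apply Finset.sum_subset_zero_on_sdiff (subset_univ _)
  · intro S hS
    have hS' : ¬ (S ⊆ H ∧ S.card ≤ r) := by
      intro h
      exact (mem_sdiff.1 hS).2 (mem_filter.2 ⟨mem_powerset.2 h.1, h.2⟩)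
    have h0 : coef (fun u => q (mix H u z)) S = 0 := by
      by_cases hSH : S ⊆ H
      · refine degLE_mix' hq H z S ?_
        by_contra hc
        exact hS' ⟨hSH, by omega⟩
      · have e : (fun u => q (mix H u z))
            = Pool.Agent.Helper24.QR.cond H (fun u => q (mix H u z)) := by
          funext u
          unfold Pool.Agent.Helper24.QR.cond
          rw [ex_congr (g := fun _ => q (mix H u z)), ex_const]
          intro y
          have : mix H (mix H u y) z = mix H u z :=
            oneA_mix_congr (fun i hi => mix_mem hi) (fun i _ => rfl)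
          exact congrArg q this
        rw [e, coef_cond, if_neg hSH]
    rw [h0, zero_mul]
  · intro R hR
    obtain ⟨hR1, hR2⟩ := mem_filter.1 hR
    have hRH := mem_powerset.1 hR1
    have hchi : ∀ (u v : Cube n), chi R (mix H u v) = chi R u := by
      intro u v
      unfold chi
      exact Finset.prod_congr rfl fun i hi => by rw [mix_mem (hRH hi)]
    congr 1
    · unfold coef
      exact ex_congr fun u => by rw [hchi]; ring
    · unfold coef Pool.Agent.Helper24.QR.cond
      refine ex_congr fun u => ?_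
      have : mix (univ \ H) w u = mix H u w := by
        funext i
        by_cases hi : i ∈ H
        · rw [mix_mem hi, mix_notMem (by simpa using hi)]
        · rw [mix_notMem hi, mix_mem (by simpa using hi)]
      simp only [this, hchi]; ring

theorem oneA {n r : ℕ} {g q N : Cube n → ℝ} (hq : DegLE q r) (H T₀ T₂ T₃ : Finset (Fin n))
    (h02 : Disjoint T₀ T₂) (h03 : Disjoint T₀ T₃) (h23 : Disjoint T₂ T₃) :
    ex (fun w => ex (fun y => (cond (T₀ \ H ∪ T₂ \ H) g (mix (T₀ \ H) w y) - cond (T₀ \ H) g w)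
        * q (mix (T₃ ∪ H) w y) * N w))
      = ∑ R ∈ H.powerset.filter (fun R => R.card ≤ r),
          ex (fun w => ex (fun y =>
            (cond (T₀ \ H ∪ T₂ \ H) g (mix (T₀ \ H) w y) - cond (T₀ \ H) g w)
            * (chi R (mix T₃ w y) * q (mix T₃ w y))
            * cond (univ \ H) (fun z => chi R z * N z) w)) := by
  set Ψ : Cube n → Cube n → ℝ := fun w y =>
    cond (T₀ \ H ∪ T₂ \ H) g (mix (T₀ \ H) w y) - cond (T₀ \ H) g w with hΨ
  -- `Ψ` does not see `H`
  have hΨc : ∀ w w' y y' : Cube n, (∀ i ∉ H, w i = w' i) → (∀ i ∉ H, y i = y' i) →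
      Ψ w y = Ψ w' y' := by
    intro w w' y y' hw hy
    simp only [hΨ]
    congr 1
    · refine oneA_cond_congr g fun i hi => ?_
      have hiH : i ∉ H := by
        rcases mem_union.1 hi with h | h <;> exact (mem_sdiff.1 h).2
      by_cases h0 : i ∈ T₀ \ H
      · rw [mix_mem h0, mix_mem h0, hw i hiH]
      · rw [mix_notMem h0, mix_notMem h0, hy i hiH]
    · exact oneA_cond_congr g fun i hi => hw i (mem_sdiff.1 hi).2
  -- the left side
  have hL : ex (fun w => ex (fun y => Ψ w y * q (mix (T₃ ∪ H) w y) * N w))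
      = ex (fun w => ex (fun y => Ψ w y
          * ex (fun u => q (mix H u (mix T₃ w y)) * N (mix H u w)))) := by
    rw [← ex_mix H (fun w => ex (fun y => Ψ w y * q (mix (T₃ ∪ H) w y) * N w))]
    rw [ex_comm]
    refine ex_congr fun w => ?_
    rw [ex_comm]
    refine ex_congr fun y => ?_
    rw [← ex_const_mul]
    refine ex_congr fun u => ?_
    have e1 : Ψ (mix H u w) y = Ψ w y :=
      hΨc _ _ _ _ (fun i hi => mix_notMem hi) (fun i _ => rfl)
    have e2 : mix (T₃ ∪ H) (mix H u w) y = mix H u (mix T₃ w y) := by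
      funext i
      by_cases hi : i ∈ H
      · rw [mix_mem (mem_union_right _ hi), mix_mem hi, mix_mem hi]
      · rw [mix_notMem (K := H) hi]
        by_cases h3 : i ∈ T₃
        · rw [mix_mem (mem_union_left _ h3), mix_notMem hi, mix_mem h3]
        · rw [mix_notMem (by simp [h3, hi]), mix_notMem h3]
    rw [e1, e2]; ring
  rw [hL]
  simp_rw [oneA_plancherel hq]
  simp_rw [mul_sum, ex_sum]
  refine Finset.sum_congr rfl fun R hR => ?_
  have hRH := mem_powerset.1 (mem_filter.1 hR).1
  -- swap the coordinates in `H \ T₃`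
  have hsw := exchange (stop_const (univ \ (H \ T₃))) (fun w y => Ψ w y
    * (chi R (mix T₃ w y) * q (mix T₃ w y)) * cond (univ \ H) (fun z => chi R z * N z) w)
  rw [← hsw]
  rw [← ex_mix H (fun w => ex (fun y => Ψ (mix (univ \ (H \ T₃)) w y) (mix (univ \ (H \ T₃)) y w)
    * (chi R (mix T₃ (mix (univ \ (H \ T₃)) w y) (mix (univ \ (H \ T₃)) y w))
      * q (mix T₃ (mix (univ \ (H \ T₃)) w y) (mix (univ \ (H \ T₃)) y w)))
      * cond (univ \ H) (fun z => chi R z * N z) (mix (univ \ (H \ T₃)) w y)))]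
  conv_rhs => rw [ex_comm]
  refine ex_congr fun w => ?_
  conv_rhs => rw [ex_comm]
  refine ex_congr fun y => ?_
  have hmem : ∀ i, i ∉ H → i ∈ univ \ (H \ T₃) := fun i hi => by simp [hi]
  have f1 : ∀ u : Cube n, Ψ (mix (univ \ (H \ T₃)) (mix H u w) y)
      (mix (univ \ (H \ T₃)) y (mix H u w)) = Ψ w y := by
    intro u
    refine hΨc _ _ _ _ (fun i hi => ?_) (fun i hi => ?_)
    · rw [mix_mem (hmem i hi), mix_notMem hi]
    · rw [mix_mem (hmem i hi)]
  have f2 : ∀ u : Cube n, cond (univ \ H) (fun z => chi R z * N z)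
      (mix (univ \ (H \ T₃)) (mix H u w) y) = cond (univ \ H) (fun z => chi R z * N z) w := by
    intro u
    refine oneA_cond_congr _ fun i hi => ?_
    have hi' : i ∉ H := (mem_sdiff.1 hi).2
    rw [mix_mem (hmem i hi'), mix_notMem hi']
  have f3 : ∀ u : Cube n, mix T₃ (mix (univ \ (H \ T₃)) (mix H u w) y)
      (mix (univ \ (H \ T₃)) y (mix H u w)) = mix H u (mix T₃ w y) := by
    intro u
    funext i
    by_cases hi : i ∈ H
    · rw [mix_mem hi]
      by_cases h3 : i ∈ T₃
      · rw [mix_mem h3, mix_mem (by simp [h3]), mix_mem hi]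
      · rw [mix_notMem h3, mix_notMem (by simp [h3, hi]), mix_mem hi]
    · rw [mix_notMem (K := H) hi]
      by_cases h3 : i ∈ T₃
      · rw [mix_mem h3, mix_mem (hmem i hi), mix_notMem hi, mix_mem h3]
      · rw [mix_notMem h3, mix_mem (hmem i hi), mix_notMem h3]
  rw [← mul_assoc, ← ex_const_mul, ← ex_mul_const]
  refine ex_congr fun u => ?_
  rw [f1, f2, f3]

end Pool.Agent.Helper94.HT
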