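import Pool.Agent.Helper37.HT.COND

set_option linter.dupNamespace false

/-! Module ONEB: removing the dependence on the heavy set. -/

namespace Pool.Agent.Helper94.HT

open Finset Pool.Agent.Helper11.Cube Pool.Agent.Helper11.AA Pool.Agent.Helper24.QR

/-- `cond K f` only depends on the coordinates in `K`. -/
lemma oneB_cond_congr {n : ℕ} {K : Finset (Fin n)} (f : Cube n → ℝ) {x x' : Cube n}
    (h : ∀ i ∈ K, x i = x' i) : cond K f x = cond K f x' := by
  unfold Pool.Agent.Helper24.QR.cond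
  refine ex_congr fun y => ?_
  congr 1
  funext i
  by_cases hi : i ∈ K
  · rw [mix_mem hi, mix_mem hi, h i hi]
  · rw [mix_notMem hi, mix_notMem hi]

lemma oneB_cs {n : ℕ} (F G : Cube n → Cube n → ℝ) :
    ex (fun w => ex (fun y => F w y * G w y)) ^ 2
      ≤ ex (fun w => ex (fun y => F w y ^ 2)) * ex (fun w => ex (fun y => G w y ^ 2)) := by
  unfold ex
  simp only [← sum_div]
  have h := sum_mul_sq_le_sq_mul_sq (univ : Finset (Cube n × Cube n))
    (fun p => F p.1 p.2) (fun p => G p.1 p.2)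
  rw [← Fintype.sum_prod_type' (f := fun x y => F x y * G x y),
    ← Fintype.sum_prod_type' (f := fun x y => F x y ^ 2),
    ← Fintype.sum_prod_type' (f := fun x y => G x y ^ 2)]
  have h2 : (0 : ℝ) < 2 ^ n := two_pow_pos n
  rw [div_div, div_div, div_div, div_pow, div_mul_div_comm, sq ((2 : ℝ) ^ n * 2 ^ n)]
  exact div_le_div_of_nonneg_right h (mul_pos (mul_pos h2 h2) (mul_pos h2 h2)).le

theorem oneB {n : ℕ} {g b N : Cube n → ℝ} {Mg : ℝ}
    (hMg : ∀ v, ex (fun x => discreteDeriv v g x ^ 2) ≤ Mg ^ 2) (hMg0 : 0 ≤ Mg)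
    (hN : ∀ x, |N x| ≤ 1) (H T₀ T₂ T₃ : Finset (Fin n))
    (h02 : Disjoint T₀ T₂) :
    |ex (fun w => ex (fun y => (cond (T₀ ∪ T₂) g (mix T₀ w y) - cond T₀ g w)
        * b (mix T₃ w y) * N w))
      - ex (fun w => ex (fun y =>
          (cond (T₀ \ H ∪ T₂ \ H) g (mix (T₀ \ H) w y) - cond (T₀ \ H) g w)
          * b (mix T₃ w y) * N w))|
      ≤ Real.sqrt H.card * Mg * Real.sqrt (ex (fun x => b x ^ 2)) := by
  set Ψ : Cube n → ℝ := fun x => (cond (T₀ ∪ T₂) g x - cond T₀ g x)
    - (cond (T₀ \ H ∪ T₂ \ H) g x - cond (T₀ \ H) g x) with hΨ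
  have e1 : ∀ w y : Cube n, (cond (T₀ ∪ T₂) g (mix T₀ w y) - cond T₀ g w)
      - (cond (T₀ \ H ∪ T₂ \ H) g (mix (T₀ \ H) w y) - cond (T₀ \ H) g w) = Ψ (mix T₀ w y) := by
    intro w y
    simp only [hΨ]
    have a1 : cond T₀ g w = cond T₀ g (mix T₀ w y) :=
      oneB_cond_congr g fun i hi => (mix_mem hi).symm
    have a2 : cond (T₀ \ H) g w = cond (T₀ \ H) g (mix T₀ w y) :=
      oneB_cond_congr g fun i hi => (mix_mem (mem_sdiff.1 hi).1).symm
    have a3 : cond (T₀ \ H ∪ T₂ \ H) g (mix (T₀ \ H) w y)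
        = cond (T₀ \ H ∪ T₂ \ H) g (mix T₀ w y) := by
      refine oneB_cond_congr g fun i hi => ?_
      rcases mem_union.1 hi with hi | hi
      · rw [mix_mem hi, mix_mem (mem_sdiff.1 hi).1]
      · have h0 : i ∉ T₀ := fun h => (Finset.disjoint_left.1 h02) h (mem_sdiff.1 hi).1
        rw [mix_notMem (fun h => h0 (mem_sdiff.1 h).1), mix_notMem h0]
    rw [a1, a2, a3]
  rw [← ex_sub]
  rw [ex_congr (g := fun w => ex (fun y => Ψ (mix T₀ w y) * (b (mix T₃ w y) * N w)))
    (fun w => by rw [← ex_sub]; exact ex_congr fun y => by rw [← e1 w y]; ring)]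
  have hcs := oneB_cs (fun w y => Ψ (mix T₀ w y)) (fun w y => b (mix T₃ w y) * N w)
  -- the second factor
  have hb : ex (fun w => ex (fun y => (b (mix T₃ w y) * N w) ^ 2)) ≤ ex (fun x => b x ^ 2) := by
    rw [← ex_mix T₃ (fun x => b x ^ 2)]
    refine ex_mono fun w => ex_mono fun y => ?_
    rw [mul_pow]
    have : N w ^ 2 ≤ 1 := by
      rw [← sq_abs]
      nlinarith [hN w, abs_nonneg (N w)]
    nlinarith [sq_nonneg (b (mix T₃ w y))]
  -- the first factor
  have hΨ2 : ex (fun w => ex (fun y => Ψ (mix T₀ w y) ^ 2)) ≤ H.card * Mg ^ 2 := by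
    rw [ex_mix T₀ (fun x => Ψ x ^ 2), parseval]
    have hco : ∀ S : Finset (Fin n), coef Ψ S ^ 2 ≤ ∑ v ∈ H, if v ∈ S then coef g S ^ 2 else 0 := by
      intro S
      have h1 : coef Ψ S = (coef (cond (T₀ ∪ T₂) g) S - coef (cond T₀ g) S)
          - (coef (cond (T₀ \ H ∪ T₂ \ H) g) S - coef (cond (T₀ \ H) g) S) := by
        unfold coef
        rw [← ex_sub, ← ex_sub, ← ex_sub]
        refine ex_congr fun x => ?_
        simp only [hΨ]; ring
      rw [h1, coef_cond, coef_cond, coef_cond, coef_cond]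
      by_cases hSH : ∃ v ∈ H, v ∈ S
      · obtain ⟨v, hvH, hvS⟩ := hSH
        have n1 : ¬ S ⊆ T₀ \ H := fun h => (mem_sdiff.1 (h hvS)).2 hvH
        have n2 : ¬ S ⊆ T₀ \ H ∪ T₂ \ H := fun h => by
          rcases mem_union.1 (h hvS) with h | h <;> exact (mem_sdiff.1 h).2 hvH
        rw [if_neg n1, if_neg n2]
        have hle : coef g S ^ 2 ≤ ∑ v ∈ H, if v ∈ S then coef g S ^ 2 else 0 := by
          refine le_trans ?_ (Finset.single_le_sum (f := fun v => if v ∈ S then coef g S ^ 2 else 0)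
            (fun i _ => ?_) hvH)
          · simp [hvS]
          · split_ifs <;> positivity
        refine le_trans ?_ hle
        by_cases c1 : S ⊆ T₀
        · have c2 : S ⊆ T₀ ∪ T₂ := c1.trans subset_union_left
          rw [if_pos c1, if_pos c2]
          simp only [sub_self]
          nlinarith [sq_nonneg (coef g S)]
        · rw [if_neg c1]
          by_cases c2 : S ⊆ T₀ ∪ T₂
          · rw [if_pos c2]; simp
          · rw [if_neg c2]; simp; positivity
      · push Not at hSH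
        have i1 : S ⊆ T₀ ↔ S ⊆ T₀ \ H :=
          ⟨fun h x hx => mem_sdiff.2 ⟨h hx, fun hH => hSH x hH hx⟩,
            fun h x hx => (mem_sdiff.1 (h hx)).1⟩
        have i2 : S ⊆ T₀ ∪ T₂ ↔ S ⊆ T₀ \ H ∪ T₂ \ H := by
          constructor
          · intro h x hx
            have hx' : x ∉ H := fun hH => hSH x hH hx
            rcases mem_union.1 (h hx) with h | h
            · exact mem_union_left _ (mem_sdiff.2 ⟨h, hx'⟩)
            · exact mem_union_right _ (mem_sdiff.2 ⟨h, hx'⟩)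
          · intro h x hx
            rcases mem_union.1 (h hx) with h | h
            · exact mem_union_left _ (mem_sdiff.1 h).1
            · exact mem_union_right _ (mem_sdiff.1 h).1
        simp only [i1, i2, sub_self]
        rw [zero_pow two_ne_zero]
        refine Finset.sum_nonneg fun v _ => ?_
        split_ifs <;> positivity
    refine (Finset.sum_le_sum fun S _ => hco S).trans ?_
    rw [Finset.sum_comm]
    have : ∀ v ∈ H, ∑ S : Finset (Fin n), (if v ∈ S then coef g S ^ 2 else 0) ≤ Mg ^ 2 := by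
      intro v _
      refine le_trans (le_of_eq ?_) (hMg v)
      rw [ex_deriv_sq, Finset.sum_filter]
    refine (Finset.sum_le_sum this).trans ?_
    rw [Finset.sum_const, nsmul_eq_mul]
  have hb0 : 0 ≤ ex (fun x => b x ^ 2) := ex_nonneg fun x => sq_nonneg _
  have hfin : ex (fun w => ex (fun y => Ψ (mix T₀ w y) * (b (mix T₃ w y) * N w))) ^ 2
      ≤ (H.card * Mg ^ 2) * ex (fun x => b x ^ 2) := by
    refine hcs.trans (mul_le_mul hΨ2 hb ?_ (by positivity))
    exact ex_nonneg fun w => ex_nonneg fun y => sq_nonneg _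
  rw [← Real.sqrt_sq_eq_abs]
  refine (Real.sqrt_le_sqrt hfin).trans (le_of_eq ?_)
  rw [Real.sqrt_mul (by positivity), Real.sqrt_mul (by positivity), Real.sqrt_sq hMg0]

end Pool.Agent.Helper94.HT
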